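import Pool.Agent.Helper38.WY.Goals7
import Pool.Agent.Helper30.PP.PFUN

/-!
# Project WY (MP_fc6b1e_nt): packet WY-O_RNK

The rank of the `P`-part of the `S`-units is at most `d + s₀ + 1` (no condition on torsion,
`deg P = 1`).
-/

set_option autoImplicit false

namespace Pool.Agent.Helper48.WY

open NumberField Polynomial Module IsDedekindDomain
open Pool.Agent.Helper51.RP Pool.Agent.Helper42.RD Pool.Agent.Helper42.PP Pool.Agent.Helper64.PP
open Pool.Agent.Helper38.WY

/-- **O_RNK.** -/
theorem o_rnk (upb : O_UPB) : Pool.Agent.Helper38.WY.O_RNK := by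
  classical
  intro p hpF k _ _ K M K₁ M₁ _ _ _ _ _ _ _ _ _ _ _ _ _ _ _ ε m d s₀ δ ζ Φ P hPhi hdeg hord hfr
    hd B hSf hst hs₀
  have h2 : P_FUN := Pool.Agent.Helper30.PP.p_fun
  have hp : p.Prime := Fact.out
  have hδm : δ ^ m = 1 := by rw [← hord]; exact pow_orderOf_eq_one δ
  have hm0 : 0 < m := lt_trans zero_lt_one hPhi.one_lt
  obtain ⟨hF, -⟩ := h2 p K M m δ P hm0 hPhi.copm hδm hPhi.irr hPhi.dvdP
  have hirr : Fact (Irreducible P) := ⟨hPhi.irr⟩
  have hP0 : P ≠ 0 := hPhi.irr.ne_zero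
  have hfd : FiniteDimensional (ZMod p) (AdjoinRoot P) := (AdjoinRoot.powerBasis hP0).finite
  have hfin : Finite (AdjoinRoot P) := Module.finite_of_finite (ZMod p)
  have hft : Fintype (AdjoinRoot P) := Fintype.ofFinite _
  have hcard : Fintype.card (AdjoinRoot P) = p := by
    rw [Module.card_eq_pow_finrank (K := ZMod p) (V := AdjoinRoot P), ZMod.card,
      (AdjoinRoot.powerBasis hP0).finrank, AdjoinRoot.powerBasis_dim, hdeg, pow_one]
  choose c hc using fun z : AdjoinRoot P => AdjoinRoot.mk_surjective (g := P) z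
  let e : (Fin B.r → AdjoinRoot P) → Mˣ := fun z => ∏ i, pol (c (z i)) δ (B.u i)
  have hrho : ∀ z i, B.rho i (e z) = z i := by
    intro z i
    show B.rho i (∏ j, pol (c (z j)) δ (B.u j)) = z i
    rw [hom_prod (B.rhoP i).1]
    have h : ∀ j, B.rho i (pol (c (z j)) δ (B.u j)) = if i = j then z j else 0 := by
      intro j
      rw [(hF _ (B.rhoP i)).1, hc, B.rhou]
      split_ifs <;> simp
    rw [Finset.sum_congr rfl fun j _ => h j, Finset.sum_ite_eq]
    simp
  have hinj : ∀ z z', Pw p (e z / e z') → z = z' := by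
    intro z z' h
    funext i
    have h1 := (hF _ (B.rhoP i)).2 _ h
    rw [hom_div (B.rhoP i).1, hrho, hrho, sub_eq_zero] at h1
    exact h1
  have hpw1 : Pw p (1 : Mˣ) := ⟨1, (one_pow p).symm⟩
  have hinj' : Function.Injective e := by
    intro z z' h
    refine hinj z z' ?_
    rw [h, div_self']
    exact hpw1
  have hle := upb p k K M m d s₀ δ ζ Φ P hPhi hord hfr hd (up M B.S) hSf hst hs₀
    (Finset.univ.image e)
    (by
      intro x hx
      obtain ⟨z, -, rfl⟩ := Finset.mem_image.1 hx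
      refine ⟨Subgroup.prod_mem _ fun i _ => unit_pol hst δ _ (B.uS i), ?_⟩
      show Pw p (pol P δ (∏ i, pol (c (z i)) δ (B.u i)))
      rw [map_prod]
      refine pw_prod _ fun i => ?_
      rw [pol_cm]
      exact pw_pol δ _ (B.uP i))
    (by
      intro x hx y hy hxy
      obtain ⟨z, -, rfl⟩ := Finset.mem_image.1 hx
      obtain ⟨z', -, rfl⟩ := Finset.mem_image.1 hy
      intro h
      exact hxy (by rw [hinj z z' h]))
  rw [Finset.card_image_of_injective _ hinj', Finset.card_univ, Fintype.card_fun, hcard,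
    Fintype.card_fin, hdeg, one_mul] at hle
  exact (Nat.pow_le_pow_iff_right hp.one_lt).1 hle

end Pool.Agent.Helper48.WY
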